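import Mathlib

/-!
# Segments with integer end points: disjointness and proper crossings

Orientation tests on integer coordinates and their geometric meaning in the real plane.
-/

namespace Pool.Agent.X64.Hex

/-- The plane. -/
abbrev Plane := ℝ × ℝ

/-- The cross product of `v` and `w`. -/
def cross (v w : Plane) : ℝ := v.1 * w.2 - v.2 * w.1

/-- The consecutive pairs of a list. -/
def segs {α : Type} (l : List α) : List (α × α) := l.zip l.tail

/-- The polygonal arc through the points of a list. -/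
def arc (l : List Plane) : Set Plane := {q | ∃ s ∈ segs l, q ∈ segment ℝ s.1 s.2}

/-- Orientation of a triple of points. -/
def ori (p q r : Plane) : ℝ := cross (q - p) (r - p)

/-- Integer points -/
abbrev IP := ℤ × ℤ

def oi (p q r : IP) : ℤ := (q.1 - p.1) * (r.2 - p.2) - (q.2 - p.2) * (r.1 - p.1)

/-- The real point of an integer point. -/
def cc (p : IP) : Plane := ((p.1 : ℝ), (p.2 : ℝ))

theorem cc_inj {p q : IP} (h : cc p = cc q) : p = q := by
  unfold cc at h
  rw [Prod.mk.injEq] at h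
  exact Prod.ext (by exact_mod_cast h.1) (by exact_mod_cast h.2)

theorem ori_cc (p q r : IP) : ori (cc p) (cc q) (cc r) = oi p q r := by
  unfold ori cross cc oi
  push_cast
  simp

theorem ori_eq (p q r : Plane) :
    ori p q r = (q.1 - p.1) * (r.2 - p.2) - (q.2 - p.2) * (r.1 - p.1) := rfl

theorem mem_seg {p q x : Plane} : x ∈ segment ℝ p q ↔
    ∃ t : ℝ, 0 ≤ t ∧ t ≤ 1 ∧ x.1 = p.1 + t * (q.1 - p.1) ∧ x.2 = p.2 + t * (q.2 - p.2) := by
  rw [segment_eq_image']
  constructor
  · rintro ⟨t, ⟨h0, h1⟩, rfl⟩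
    exact ⟨t, h0, h1, by simp, by simp⟩
  · rintro ⟨t, h0, h1, hx, hy⟩
    refine ⟨t, ⟨h0, h1⟩, ?_⟩
    apply Prod.ext
    · simp [hx]
    · simp [hy]

theorem mem_open_seg {p q x : Plane} (t : ℝ) (h0 : 0 < t) (h1 : t < 1)
    (hx : x.1 = p.1 + t * (q.1 - p.1)) (hy : x.2 = p.2 + t * (q.2 - p.2)) :
    x ∈ openSegment ℝ p q := by
  rw [openSegment_eq_image']
  refine ⟨t, ⟨h0, h1⟩, ?_⟩
  apply Prod.ext
  · simp [hx]
  · simp [hy]

/-- The orientation is affine along a segment. -/
theorem ori_seg {p q x r s : Plane} {t : ℝ} (hx : x.1 = p.1 + t * (q.1 - p.1))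
    (hy : x.2 = p.2 + t * (q.2 - p.2)) :
    ori r s x = (1 - t) * ori r s p + t * ori r s q := by
  rw [ori_eq, ori_eq, ori_eq, hx, hy]
  ring

theorem ori_zero_of_mem {r s x : Plane} (h : x ∈ segment ℝ r s) : ori r s x = 0 := by
  obtain ⟨t, -, -, hx, hy⟩ := mem_seg.1 h
  rw [ori_eq, hx, hy]
  ring

theorem not_mem_of_side {p q r s x : Plane} (h : 0 < ori r s p * ori r s q)
    (hx : x ∈ segment ℝ p q) : ori r s x ≠ 0 := by
  obtain ⟨t, h0, h1, hx, hy⟩ := mem_seg.1 hx
  rw [ori_seg hx hy]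
  intro h2
  rcases pos_and_pos_or_neg_and_neg_of_mul_pos h with ⟨ha, hb⟩ | ⟨ha, hb⟩
  · have h3 : 0 ≤ (1 - t) * ori r s p := mul_nonneg (by linarith) ha.le
    have h4 : 0 ≤ t * ori r s q := mul_nonneg h0 hb.le
    have h5 : (1 - t) * ori r s p = 0 := by linarith
    have h6 : t * ori r s q = 0 := by linarith
    have h7 := (mul_eq_zero.1 h5).resolve_right ha.ne'
    have h8 := (mul_eq_zero.1 h6).resolve_right hb.ne'
    linarith
  · have h3 : (1 - t) * ori r s p ≤ 0 := mul_nonpos_of_nonneg_of_nonpos (by linarith) ha.le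
    have h4 : t * ori r s q ≤ 0 := mul_nonpos_of_nonneg_of_nonpos h0 hb.le
    have h5 : (1 - t) * ori r s p = 0 := by linarith
    have h6 : t * ori r s q = 0 := by linarith
    have h7 := (mul_eq_zero.1 h5).resolve_right ha.ne
    have h8 := (mul_eq_zero.1 h6).resolve_right hb.ne
    linarith

/-- The two segments are separated by one of their lines. -/
def sepB (s t : IP × IP) : Bool :=
  decide (0 < oi s.1 s.2 t.1 * oi s.1 s.2 t.2) || decide (0 < oi t.1 t.2 s.1 * oi t.1 t.2 s.2)

/-- The two segments cross properly. -/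
def crsB (s t : IP × IP) : Bool :=
  decide (oi s.1 s.2 t.1 * oi s.1 s.2 t.2 < 0) && decide (oi t.1 t.2 s.1 * oi t.1 t.2 s.2 < 0)

/-- The two segments have a common end point in `vs` and different directions. -/
def comB (vs : List IP) (s t : IP × IP) : Bool :=
  (decide (s.1 = t.1) && decide (oi s.1 s.2 t.2 ≠ 0) && decide (s.1 ∈ vs)) ||
  (decide (s.1 = t.2) && decide (oi s.1 s.2 t.1 ≠ 0) && decide (s.1 ∈ vs)) ||
  (decide (s.2 = t.1) && decide (oi s.2 s.1 t.2 ≠ 0) && decide (s.2 ∈ vs)) ||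
  (decide (s.2 = t.2) && decide (oi s.2 s.1 t.1 ≠ 0) && decide (s.2 ∈ vs))

theorem sepB_spec {s t : IP × IP} (h : sepB s t = true) {x : Plane}
    (h1 : x ∈ segment ℝ (cc s.1) (cc s.2)) (h2 : x ∈ segment ℝ (cc t.1) (cc t.2)) : False := by
  unfold sepB at h
  rw [Bool.or_eq_true, decide_eq_true_eq, decide_eq_true_eq] at h
  rcases h with h | h
  · have h3 : (0 : ℝ) < ori (cc s.1) (cc s.2) (cc t.1) * ori (cc s.1) (cc s.2) (cc t.2) := by
      rw [ori_cc, ori_cc]
      exact_mod_cast h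
    exact not_mem_of_side h3 h2 (ori_zero_of_mem h1)
  · have h3 : (0 : ℝ) < ori (cc t.1) (cc t.2) (cc s.1) * ori (cc t.1) (cc t.2) (cc s.2) := by
      rw [ori_cc, ori_cc]
      exact_mod_cast h
    exact not_mem_of_side h3 h1 (ori_zero_of_mem h2)

theorem common {p q r x : Plane} (h : ori p q r ≠ 0) (h1 : x ∈ segment ℝ p q)
    (h2 : x ∈ segment ℝ p r) : x = p := by
  obtain ⟨t, h0, h1', hx, hy⟩ := mem_seg.1 h1
  have h3 := ori_zero_of_mem h2
  rw [ori_seg hx hy] at h3
  have h4 : ori p r p = 0 := by rw [ori_eq]; ring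
  have h5 : ori p r q = -ori p q r := by rw [ori_eq, ori_eq]; ring
  rw [h4, h5] at h3
  have h6 : t * ori p q r = 0 := by linarith
  have h7 := (mul_eq_zero.1 h6).resolve_right h
  rw [h7] at hx hy
  exact Prod.ext (by linarith) (by linarith)

theorem comB_spec {vs : List IP} {s t : IP × IP} (h : comB vs s t = true) {x : Plane}
    (h1 : x ∈ segment ℝ (cc s.1) (cc s.2)) (h2 : x ∈ segment ℝ (cc t.1) (cc t.2)) :
    ∃ v ∈ vs, x = cc v := by
  unfold comB at h
  simp only [Bool.or_eq_true, Bool.and_eq_true, decide_eq_true_eq] at h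
  have key : ∀ p q r : IP, oi p q r ≠ 0 → ori (cc p) (cc q) (cc r) ≠ 0 := by
    intro p q r h
    rw [ori_cc]
    exact_mod_cast h
  rcases h with ((⟨⟨e, h3⟩, h4⟩ | ⟨⟨e, h3⟩, h4⟩) | ⟨⟨e, h3⟩, h4⟩) | ⟨⟨e, h3⟩, h4⟩
  · exact ⟨_, h4, common (key _ _ _ h3) h1 (by rw [e]; exact h2)⟩
  · exact ⟨_, h4, common (key _ _ _ h3) h1 (by rw [e, segment_symm]; exact h2)⟩
  · exact ⟨_, h4, common (key _ _ _ h3) (by rw [segment_symm]; exact h1) (by rw [e]; exact h2)⟩
  · exact ⟨_, h4, common (key _ _ _ h3) (by rw [segment_symm]; exact h1)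
      (by rw [e, segment_symm]; exact h2)⟩

theorem crsB_spec {s t : IP × IP} (h : crsB s t = true) :
    (∃ x : Plane, x ∈ openSegment ℝ (cc s.1) (cc s.2) ∧ x ∈ openSegment ℝ (cc t.1) (cc t.2)) ∧
    (∀ x y : Plane, x ∈ segment ℝ (cc s.1) (cc s.2) → x ∈ segment ℝ (cc t.1) (cc t.2) →
      y ∈ segment ℝ (cc s.1) (cc s.2) → y ∈ segment ℝ (cc t.1) (cc t.2) → x = y) ∧
    cross (cc s.2 - cc s.1) (cc t.2 - cc t.1) ≠ 0 := by
  unfold crsB at h
  simp only [Bool.and_eq_true, decide_eq_true_eq] at h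
  obtain ⟨ha, hb⟩ := h
  have ha' : ori (cc s.1) (cc s.2) (cc t.1) * ori (cc s.1) (cc s.2) (cc t.2) < 0 := by
    rw [ori_cc, ori_cc]
    exact_mod_cast ha
  have hb' : ori (cc t.1) (cc t.2) (cc s.1) * ori (cc t.1) (cc t.2) (cc s.2) < 0 := by
    rw [ori_cc, ori_cc]
    exact_mod_cast hb
  generalize cc s.1 = p at *
  generalize cc s.2 = q at *
  generalize cc t.1 = r at *
  generalize cc t.2 = u at *
  set α := ori r u p with hα
  set β := ori r u q with hβ
  set γ := ori p q r with hγ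
  set δ := ori p q u with hδ
  have hD : α - β = cross (q - p) (u - r) := by
    rw [hα, hβ, ori_eq, ori_eq]
    simp only [cross, Prod.fst_sub, Prod.snd_sub]
    ring
  have hD2 : δ - γ = cross (q - p) (u - r) := by
    rw [hγ, hδ, ori_eq, ori_eq]
    simp only [cross, Prod.fst_sub, Prod.snd_sub]
    ring
  have hαβ : α - β ≠ 0 := by
    intro h0
    have : α = β := by linarith
    rw [this] at hb'
    nlinarith [mul_self_nonneg β]
  have hfrac : ∀ a b : ℝ, a * b < 0 → 0 < a / (a - b) ∧ a / (a - b) < 1 := by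
    intro a b hab
    rcases lt_trichotomy a 0 with h | h | h
    · have hb0 : 0 < b := by
        by_contra hcon
        push Not at hcon
        nlinarith
      constructor
      · exact div_pos_of_neg_of_neg h (by linarith)
      · rw [div_lt_one_of_neg (by linarith)]
        linarith
    · rw [h, zero_mul] at hab
      exact absurd hab (lt_irrefl _)
    · have hb0 : b < 0 := by
        by_contra hcon
        push Not at hcon
        nlinarith
      constructor
      · exact div_pos h (by linarith)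
      · rw [div_lt_one (by linarith)]
        linarith
  refine ⟨?_, ?_, by rw [← hD]; exact hαβ⟩
  · obtain ⟨t0, t1⟩ := hfrac α β hb'
    obtain ⟨u0, u1⟩ := hfrac γ δ ha'
    refine ⟨(p.1 + α / (α - β) * (q.1 - p.1), p.2 + α / (α - β) * (q.2 - p.2)),
      mem_open_seg _ t0 t1 rfl rfl, mem_open_seg (γ / (γ - δ)) u0 u1 ?_ ?_⟩
    · have e : γ - δ = -(α - β) := by linarith
      rw [e]
      simp only
      rw [div_neg]
      field_simp
      rw [hα, hβ, hγ]
      simp only [ori_eq]
      ring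
    · have e : γ - δ = -(α - β) := by linarith
      rw [e]
      simp only
      rw [div_neg]
      field_simp
      rw [hα, hβ, hγ]
      simp only [ori_eq]
      ring
  · intro x y hx1 hx2 hy1 hy2
    obtain ⟨t, -, -, hx, hx'⟩ := mem_seg.1 hx1
    obtain ⟨t', -, -, hy, hy'⟩ := mem_seg.1 hy1
    have e1 := ori_zero_of_mem hx2
    have e2 := ori_zero_of_mem hy2
    rw [ori_seg hx hx'] at e1
    rw [ori_seg hy hy'] at e2
    have e3 : (t - t') * (α - β) = 0 := by
      rw [hα, hβ]
      linarith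
    have e4 := (mul_eq_zero.1 e3).resolve_right hαβ
    have e5 : t = t' := by linarith
    rw [e5] at hx hx'
    exact Prod.ext (by linarith) (by linarith)

/-! ### Arcs -/

/-- The real arc of a list of integer points. -/
def ar (l : List IP) : Set Plane := arc (l.map cc)

theorem mem_ar {l : List IP} {x : Plane} :
    x ∈ ar l ↔ ∃ s ∈ segs l, x ∈ segment ℝ (cc s.1) (cc s.2) := by
  unfold ar arc segs
  rw [← List.map_tail, List.zip_map, Set.mem_ofPred_eq]
  constructor
  · rintro ⟨s, hs, hx⟩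
    obtain ⟨t, ht, rfl⟩ := List.mem_map.1 hs
    exact ⟨t, ht, hx⟩
  · rintro ⟨t, ht, hx⟩
    exact ⟨_, List.mem_map.2 ⟨t, ht, rfl⟩, hx⟩

/-- The two arcs meet only in points of `vs`. -/
def noneB (vs : List IP) (l l' : List IP) : Bool :=
  (segs l).all fun s => (segs l').all fun t => sepB s t || comB vs s t

/-- The two arcs meet exactly in one proper crossing. -/
def oneB (l l' : List IP) : Bool :=
  (segs l).any fun s => (segs l').any fun t => crsB s t &&
    (segs l).all fun s' => (segs l').all fun t' => (decide (s' = s) && decide (t' = t)) || sepB s' t'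

theorem noneB_spec {vs l l' : List IP} (h : noneB vs l l' = true) {x : Plane}
    (h1 : x ∈ ar l) (h2 : x ∈ ar l') : ∃ v ∈ vs, x = cc v := by
  obtain ⟨s, hs, hx⟩ := mem_ar.1 h1
  obtain ⟨t, ht, hx'⟩ := mem_ar.1 h2
  unfold noneB at h
  rw [List.all_eq_true] at h
  have h3 := h s hs
  rw [List.all_eq_true] at h3
  have h4 := h3 t ht
  rw [Bool.or_eq_true] at h4
  rcases h4 with h4 | h4
  · exact (sepB_spec h4 hx hx').elim
  · exact comB_spec h4 hx hx'

/-- A proper crossing of two arcs: a point in the interior of a segment of each arc, where the two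
segments have different directions. -/
def ProperCross (l l' : List Plane) (q : Plane) : Prop :=
  ∃ s ∈ segs l, ∃ t ∈ segs l', q ∈ openSegment ℝ s.1 s.2 ∧ q ∈ openSegment ℝ t.1 t.2 ∧
    cross (s.2 - s.1) (t.2 - t.1) ≠ 0

theorem oneB_spec {l l' : List IP} (h : oneB l l' = true) :
    ∃ x, (x ∈ ar l ∧ x ∈ ar l' ∧ ProperCross (l.map cc) (l'.map cc) x) ∧
      ∀ y, y ∈ ar l → y ∈ ar l' → y = x := by
  unfold oneB at h
  rw [List.any_eq_true] at h
  obtain ⟨s, hs, h⟩ := h
  rw [List.any_eq_true] at h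
  obtain ⟨t, ht, h⟩ := h
  rw [Bool.and_eq_true] at h
  obtain ⟨h1, h2⟩ := h
  obtain ⟨⟨x, hx, hx'⟩, huniq, hcr⟩ := crsB_spec h1
  have hxs := openSegment_subset_segment _ _ _ hx
  have hxt := openSegment_subset_segment _ _ _ hx'
  refine ⟨x, ⟨mem_ar.2 ⟨s, hs, hxs⟩, mem_ar.2 ⟨t, ht, hxt⟩, ?_⟩, ?_⟩
  · refine ⟨(cc s.1, cc s.2), ?_, (cc t.1, cc t.2), ?_, hx, hx', hcr⟩
    · unfold segs
      rw [← List.map_tail, List.zip_map]
      exact List.mem_map.2 ⟨s, hs, rfl⟩
    · unfold segs
      rw [← List.map_tail, List.zip_map]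
      exact List.mem_map.2 ⟨t, ht, rfl⟩
  · intro y hy hy'
    obtain ⟨s', hs', hy⟩ := mem_ar.1 hy
    obtain ⟨t', ht', hy'⟩ := mem_ar.1 hy'
    rw [List.all_eq_true] at h2
    have h3 := h2 s' hs'
    rw [List.all_eq_true] at h3
    have h4 := h3 t' ht'
    rw [Bool.or_eq_true, Bool.and_eq_true, decide_eq_true_eq, decide_eq_true_eq] at h4
    rcases h4 with ⟨e1, e2⟩ | h4
    · rw [e1] at hy
      rw [e2] at hy'
      exact huniq y x hy hy' hxs hxt
    · exact (sepB_spec h4 hy hy').elim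

/-! ### Separation -/

/-- An open set whose frontier lies on `C` separates its points from the other points. -/
theorem not_joined {C R : Set Plane} (ho : IsOpen R) (hR : frontier R ⊆ C) {u v : Plane}
    (hu : u ∈ R) (hv : v ∉ R) : ¬ JoinedIn Cᶜ u v := by
  rintro ⟨γ, hγ⟩
  have h1 : IsPreconnected (Set.range γ) := isPreconnected_range γ.continuous
  have hfr : ∀ x ∈ Set.range γ, x ∉ frontier R := by
    rintro _ ⟨t, rfl⟩ hx
    exact hγ t (hR hx)
  rw [ho.frontier_eq] at hfr
  obtain ⟨x, -, hx1, hx2⟩ := h1 R (closure R)ᶜ ho isClosed_closure.isOpen_compl (by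
    intro x hx
    by_cases h : x ∈ R
    · exact Or.inl h
    · exact Or.inr fun hc => hfr x hx ⟨hc, h⟩) ⟨u, ⟨0, γ.source⟩, hu⟩
    ⟨v, ⟨1, γ.target⟩, fun hc => hfr v ⟨1, γ.target⟩ ⟨hc, hv⟩⟩
  exact hx2 (subset_closure hx1)

theorem continuous_ori (p q : Plane) : Continuous fun x => ori p q x := by
  unfold ori cross
  fun_prop

/-- Points in a closed triangle on the line of one side are on this side. -/
theorem tri_side {p q r x : Plane} (hpos : 0 < ori p q r) (h1 : ori p q x = 0)
    (h2 : 0 ≤ ori q r x) (h3 : 0 ≤ ori r p x) : x ∈ segment ℝ p q := by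
  set D := ori p q r with hD
  rw [mem_seg]
  have hsum : ori p q x + ori q r x + ori r p x = D := by
    rw [hD]
    simp only [ori_eq]
    ring
  refine ⟨ori r p x / D, div_nonneg h3 hpos.le, (div_le_one hpos).2 (by linarith), ?_, ?_⟩
  · have e : x.1 * D = p.1 * ori q r x + q.1 * ori r p x + r.1 * ori p q x := by
      rw [hD]
      simp only [ori_eq]
      ring
    have e2 : ori q r x = D - ori r p x := by linarith
    rw [h1, e2] at e
    field_simp
    linarith
  · have e : x.2 * D = p.2 * ori q r x + q.2 * ori r p x + r.2 * ori p q x := by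
      rw [hD]
      simp only [ori_eq]
      ring
    have e2 : ori q r x = D - ori r p x := by linarith
    rw [h1, e2] at e
    field_simp
    linarith

theorem ori_rot (p q r : Plane) : ori q r p = ori p q r := by
  simp only [ori_eq]
  ring

theorem tri_open (p q r : Plane) :
    IsOpen {x | 0 < ori p q x ∧ 0 < ori q r x ∧ 0 < ori r p x} :=
  (isOpen_lt continuous_const (continuous_ori p q)).inter
    ((isOpen_lt continuous_const (continuous_ori q r)).inter
      (isOpen_lt continuous_const (continuous_ori r p)))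

theorem tri_frontier {C : Set Plane} {p q r : Plane} (hpos : 0 < ori p q r)
    (h1 : segment ℝ p q ⊆ C) (h2 : segment ℝ q r ⊆ C) (h3 : segment ℝ r p ⊆ C) :
    frontier {x | 0 < ori p q x ∧ 0 < ori q r x ∧ 0 < ori r p x} ⊆ C := by
  set R := {x | 0 < ori p q x ∧ 0 < ori q r x ∧ 0 < ori r p x} with hR
  have hopen : IsOpen R := tri_open p q r
  have hclosed : IsClosed {x | 0 ≤ ori p q x ∧ 0 ≤ ori q r x ∧ 0 ≤ ori r p x} := by
    refine (isClosed_le continuous_const (continuous_ori p q)).inter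
      ((isClosed_le continuous_const (continuous_ori q r)).inter
        (isClosed_le continuous_const (continuous_ori r p)))
  intro x hx
  rw [hopen.frontier_eq] at hx
  have hxc : x ∈ {x | 0 ≤ ori p q x ∧ 0 ≤ ori q r x ∧ 0 ≤ ori r p x} := by
    refine closure_minimal ?_ hclosed hx.1
    rintro y ⟨a, b, c⟩
    exact ⟨a.le, b.le, c.le⟩
  obtain ⟨a, b, c⟩ := hxc
  have hnot := hx.2
  by_cases ha : ori p q x = 0
  · exact h1 (tri_side hpos ha b c)
  by_cases hb : ori q r x = 0
  · exact h2 (tri_side (by rw [ori_rot]; exact hpos) hb c a)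
  by_cases hc : ori r p x = 0
  · exact h3 (tri_side (by rw [ori_rot, ori_rot]; exact hpos) hc a b)
  exact absurd ⟨lt_of_le_of_ne a (Ne.symm ha), lt_of_le_of_ne b (Ne.symm hb),
    lt_of_le_of_ne c (Ne.symm hc)⟩ hnot

theorem cont1 (A X : ℝ) : Continuous fun x : Plane => X * (A - |x.2|) := by fun_prop
theorem cont2 (A : ℝ) : Continuous fun x : Plane => A * x.1 := by fun_prop

theorem lens_open (A X₁ X₂ : ℝ) :
    IsOpen {x : Plane | X₁ * (A - |x.2|) < A * x.1 ∧ A * x.1 < X₂ * (A - |x.2|)} :=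
  (isOpen_lt (cont1 A X₁) (cont2 A)).inter (isOpen_lt (cont2 A) (cont1 A X₂))

/-- The region between the arcs `a, (X₁, 0), b` and `a, (X₂, 0), b` with `a = (0, A)`,
`b = (0, -A)`. -/
theorem lens_frontier {C : Set Plane} {A X₁ X₂ : ℝ} (hA : 0 < A) (hX : X₁ < X₂)
    (h1 : segment ℝ (0, A) (X₁, 0) ⊆ C) (h2 : segment ℝ (X₁, 0) (0, -A) ⊆ C)
    (h3 : segment ℝ (0, A) (X₂, 0) ⊆ C) (h4 : segment ℝ (X₂, 0) (0, -A) ⊆ C) :
    frontier {x : Plane | X₁ * (A - |x.2|) < A * x.1 ∧ A * x.1 < X₂ * (A - |x.2|)} ⊆ C := by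
  set R := {x : Plane | X₁ * (A - |x.2|) < A * x.1 ∧ A * x.1 < X₂ * (A - |x.2|)} with hR
  have hopen : IsOpen R := lens_open A X₁ X₂
  have hclosed : IsClosed {x : Plane | X₁ * (A - |x.2|) ≤ A * x.1 ∧
      A * x.1 ≤ X₂ * (A - |x.2|)} :=
    (isClosed_le (cont1 A X₁) (cont2 A)).inter (isClosed_le (cont2 A) (cont1 A X₂))
  intro x hx
  rw [hopen.frontier_eq] at hx
  have hxc : x ∈ {x : Plane | X₁ * (A - |x.2|) ≤ A * x.1 ∧ A * x.1 ≤ X₂ * (A - |x.2|)} := by
    refine closure_minimal ?_ hclosed hx.1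
    rintro y ⟨a, b⟩
    exact ⟨a.le, b.le⟩
  obtain ⟨a, b⟩ := hxc
  have hle : |x.2| ≤ A := by
    by_contra hcon
    push Not at hcon
    nlinarith
  have key : ∀ X : ℝ, A * x.1 = X * (A - |x.2|) → segment ℝ (0, A) (X, 0) ⊆ C →
      segment ℝ (X, 0) (0, -A) ⊆ C → x ∈ C := by
    intro X e s1 s2
    rcases le_total 0 x.2 with h0 | h0
    · apply s1
      rw [abs_of_nonneg h0] at e hle
      rw [mem_seg]
      refine ⟨1 - x.2 / A, ?_, ?_, ?_, ?_⟩
      · have := (div_le_one hA).2 hle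
        linarith
      · have := div_nonneg h0 hA.le
        linarith
      · simp only
        field_simp
        linarith
      · simp only
        field_simp
        ring
    · apply s2
      rw [abs_of_nonpos h0] at e hle
      rw [mem_seg]
      refine ⟨-x.2 / A, ?_, ?_, ?_, ?_⟩
      · exact div_nonneg (by linarith) hA.le
      · exact (div_le_one hA).2 hle
      · simp only
        field_simp
        linarith
      · simp only
        field_simp
        ring
  have hnot := hx.2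
  by_cases e1 : A * x.1 = X₁ * (A - |x.2|)
  · exact key X₁ e1 h1 h2
  by_cases e2 : A * x.1 = X₂ * (A - |x.2|)
  · exact key X₂ e2 h3 h4
  exact absurd ⟨lt_of_le_of_ne a (Ne.symm e1), lt_of_le_of_ne b e2⟩ hnot

end Pool.Agent.X64.Hex
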